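import Pool.Agent.Y789.TQ.Metric

/-!
# Polynomial integrals of even degree on the 2-torus

There is a smooth Riemannian metric `g` on the 2-torus (a smooth `ℤ²`-periodic metric on the plane)
such that

* for every `d ≥ 3` other than `4`, in particular for every even `d ≥ 6`, the geodesic flow of `g`
  has a nontrivial integral which is polynomial of degree `d` in the momenta;
* every homogeneous quadratic integral is a constant multiple of the energy;
* every linear integral vanishes.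

As in the frozen statements, integrals are written in momentum form; `ξ ↦ g ξ` identifies functions
which are polynomial (homogeneous) of degree `d` in the velocities with those which are polynomial
(homogeneous) of degree `d` in the momenta.
-/

set_option autoImplicit false

open scoped ContDiff

namespace Pool.Agent.Results.MP_582a01_gt.EvenDegree

/-- A smooth Riemannian metric on the 2-torus, as a `ℤ²`-periodic metric on the plane. -/
def IsTorusMetric (g : (Fin 2 → ℝ) → Fin 2 → Fin 2 → ℝ) : Prop :=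
  (∀ i j, ContDiff ℝ ∞ (fun x => g x i j)) ∧
  (∀ x, (Matrix.of (g x)).PosDef) ∧
  ∀ (x : Fin 2 → ℝ) (v : Fin 2 → ℤ), g (x + (fun k => (v k : ℝ))) = g x

/-- The energy `H(x, p) = ½ |p|²` of the metric `g`, as a function of point and momentum. -/
noncomputable def energy (g : (Fin 2 → ℝ) → Fin 2 → Fin 2 → ℝ) (x p : Fin 2 → ℝ) : ℝ :=
  (1 / 2 : ℝ) * dotProduct p ((Matrix.of (g x))⁻¹.mulVec p)

/-- The Poisson bracket `{F, G}(x, p)`. -/
noncomputable def bracket (F G : (Fin 2 → ℝ) → (Fin 2 → ℝ) → ℝ) (x p : Fin 2 → ℝ) : ℝ :=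
  ∑ k : Fin 2,
    (fderiv ℝ (fun y => F y p) x (Pi.single k (1 : ℝ)) *
        fderiv ℝ (fun q => G x q) p (Pi.single k (1 : ℝ)) -
      fderiv ℝ (fun q => F x q) p (Pi.single k (1 : ℝ)) *
        fderiv ℝ (fun y => G y p) x (Pi.single k (1 : ℝ)))

/-- A real function on the plane with all integer vectors as periods. -/
def Periodic (f : (Fin 2 → ℝ) → ℝ) : Prop :=
  ∀ (x : Fin 2 → ℝ) (v : Fin 2 → ℤ), f (x + (fun k => (v k : ℝ))) = f x

/-- `F` is an integral of the geodesic flow of `g`, polynomial of degree `d` in the momenta, with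
smooth periodic coefficients (some coefficient of total degree `d` does not vanish identically). -/
def IsPolynomialIntegral (g : (Fin 2 → ℝ) → Fin 2 → Fin 2 → ℝ) (d : ℕ)
    (F : (Fin 2 → ℝ) → (Fin 2 → ℝ) → ℝ) : Prop :=
  ∃ a : ℕ → ℕ → (Fin 2 → ℝ) → ℝ,
    (∀ x p, F x p = ∑ i ∈ Finset.range (d + 1), ∑ j ∈ Finset.range (d + 1 - i),
      a i j x * p 0 ^ i * p 1 ^ j) ∧
    (∀ i j, ContDiff ℝ ∞ (a i j)) ∧ (∀ i j, Periodic (a i j)) ∧
    (∃ i j x, i + j = d ∧ a i j x ≠ 0) ∧
    ∀ x p, bracket F (energy g) x p = 0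

/-- The integral `F` is trivial: it is a polynomial in the energy. -/
def IsTrivial (g : (Fin 2 → ℝ) → Fin 2 → Fin 2 → ℝ) (F : (Fin 2 → ℝ) → (Fin 2 → ℝ) → ℝ) : Prop :=
  ∃ q : Polynomial ℝ, ∀ x p, F x p = q.eval (energy g x p)

/-- `F` is an integral of the geodesic flow of `g`, homogeneous quadratic in the momenta, with
differentiable periodic coefficients. -/
def IsQuadraticIntegral (g : (Fin 2 → ℝ) → Fin 2 → Fin 2 → ℝ)
    (F : (Fin 2 → ℝ) → (Fin 2 → ℝ) → ℝ) : Prop :=
  ∃ α β γ : (Fin 2 → ℝ) → ℝ,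
    (Differentiable ℝ α ∧ Differentiable ℝ β ∧ Differentiable ℝ γ) ∧
    (Periodic α ∧ Periodic β ∧ Periodic γ) ∧
    (∀ x p, F x p = α x * p 0 ^ 2 + β x * (p 0 * p 1) + γ x * p 1 ^ 2) ∧
    ∀ x p, bracket F (energy g) x p = 0

/-- `F` is an integral of the geodesic flow of `g`, linear in the momenta, with differentiable
periodic coefficients. -/
def IsLinearIntegral (g : (Fin 2 → ℝ) → Fin 2 → Fin 2 → ℝ)
    (F : (Fin 2 → ℝ) → (Fin 2 → ℝ) → ℝ) : Prop :=
  ∃ α β : (Fin 2 → ℝ) → ℝ,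
    (Differentiable ℝ α ∧ Differentiable ℝ β) ∧ (Periodic α ∧ Periodic β) ∧
    (∀ x p, F x p = α x * p 0 + β x * p 1) ∧
    ∀ x p, bracket F (energy g) x p = 0

/-- There is a metric on the 2-torus whose geodesic flow has nontrivial polynomial integrals of every
degree `d ≥ 3`, `d ≠ 4` (in particular of every even degree `d ≥ 6`), while every homogeneous
quadratic integral is a constant multiple of the energy and every linear integral is zero. -/
theorem result : ∃ g : (Fin 2 → ℝ) → Fin 2 → Fin 2 → ℝ, IsTorusMetric g ∧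
    (∀ d : ℕ, 3 ≤ d → d ≠ 4 → ∃ F, IsPolynomialIntegral g d F ∧ ¬ IsTrivial g F) ∧
    (∀ F, IsQuadraticIntegral g F → ∃ r : ℝ, ∀ x p, F x p = r * energy g x p) ∧
    ∀ F, IsLinearIntegral g F → ∀ x p, F x p = 0 := by
  obtain ⟨P⟩ := Pool.Agent.TH309.Tor.exists_pack
  refine ⟨Pool.Agent.Y789.TQ.gT P, ⟨Pool.Agent.Y789.TQ.gT_contDiff P,
    Pool.Agent.Y789.TQ.gT_posDef P, Pool.Agent.Y789.TQ.gT_per P⟩, ?_, ?_, ?_⟩
  · intro d h3 h4
    obtain ⟨n, k, hd, hn⟩ : ∃ n k, d = 3 * n + 2 * k ∧ (n = 1 ∨ n = 2) := by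
      rcases Nat.even_or_odd d with ⟨m, hm⟩ | ⟨m, hm⟩
      · exact ⟨2, m - 3, by omega, Or.inr rfl⟩
      · exact ⟨1, m - 1, by omega, Or.inl rfl⟩
    subst hd
    obtain ⟨a, h1, h2, h3, h4⟩ := (Pool.Agent.Y789.TQ.hform_int P n k).double
      (Pool.Agent.Y789.TQ.int_ne P n k)
    refine ⟨_, ⟨a, h1, h2, h3, h4, Pool.Agent.Y789.TQ.bracket_int P n k⟩, ?_⟩
    rcases hn with rfl | rfl
    · exact Pool.Agent.Y789.TQ.odd_nontrivial P k
    · exact Pool.Agent.Y789.TQ.even_nontrivial P k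
  · rintro F ⟨α, β, γ, ⟨d1, d2, d3⟩, ⟨p1, p2, p3⟩, hF, hb⟩
    have e : F = fun x p => α x * p 0 ^ 2 + β x * (p 0 * p 1) + γ x * p 1 ^ 2 := by
      funext x p; exact hF x p
    subst e
    exact Pool.Agent.Y789.TQ.quad_energy P d1 d2 d3 p1 p2 p3 hb
  · rintro F ⟨α, β, ⟨d1, d2⟩, ⟨p1, p2⟩, hF, hb⟩ x p
    have e : F = fun x p => α x * p 0 + β x * p 1 := by
      funext x p; exact hF x p
    subst e
    obtain ⟨h1, h2⟩ := Pool.Agent.Y789.TQ.lin_zero P d1 d2 p1 p2 hb x
    simp only [h1, h2]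
    ring

end Pool.Agent.Results.MP_582a01_gt.EvenDegree
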